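import Mathlib
import Pool.Agent.Work.MP_2dba45_nt.TG.Loc

set_option autoImplicit false

namespace Pool.Agent.Results.MP_2dba45_nt.BoundedGaps

open Finset Pool.Agent.Work.MP_2dba45_nt.TG Pool.Agent.Work.MP_2dba45_nt.Sv

/-- There is a constant `C` such that for every `k ≥ 1` and every set `H` of at least `C ^ k`
shifts, there are `≫ N / (log N) ^ κ` integers `n` in `(N, 2 N]` for which at least `k` of the
integers `m = n + h`, `h ∈ H`, have the following property: `m ^ 2 + 1` has at most two prime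
factors, all at least `N ^ (9 / 40)`, and `m ^ 2 + 3` has at most `R` prime factors, all at least
`N ^ δ`. -/
theorem result : ∃ C : ℕ, ∀ (k : ℕ) (H : Finset ℕ), 1 ≤ k → C ^ k ≤ #H →
    ∃ (R : ℕ) (δ c : ℝ) (κ N₀ : ℕ), 0 < δ ∧ 0 < c ∧ ∀ N : ℕ, N₀ ≤ N →
      c * (N / (Real.log N) ^ κ) ≤ ({n : ℕ | N < n ∧ n ≤ 2 * N ∧
        k ≤ {h : ℕ | h ∈ H ∧
          ArithmeticFunction.cardFactors ((n + h) ^ 2 + 1) ≤ 2 ∧
          ArithmeticFunction.cardFactors ((n + h) ^ 2 + 3) ≤ R ∧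
          (∀ p : ℕ, p.Prime → p ∣ (n + h) ^ 2 + 1 → (N : ℝ) ^ ((9 : ℝ) / 40) ≤ p) ∧
          ∀ p : ℕ, p.Prime → p ∣ (n + h) ^ 2 + 3 → (N : ℝ) ^ δ ≤ p}.ncard}.ncard : ℝ) := by
  classical
  obtain ⟨C, hC1, hC⟩ := tuple_any 4 0
  refine ⟨C, fun k H hk hH => ?_⟩
  obtain ⟨m, rfl⟩ : ∃ m, k = m + 1 := ⟨k - 1, by omega⟩
  obtain ⟨B, hB⟩ : ∃ B : ℕ × ℕ → ℕ → ℕ → Prop,
      B = fun s p n => p ∣ ((n + s.1) ^ 2 + 1) * ((n + s.1) ^ 2 + 3) := ⟨_, rfl⟩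
  have hinj : Function.Injective (fun h : ℕ => (h, 1)) := fun a b hab => (Prod.mk.injEq _ _ _ _ ▸ hab).1
  have hcard : #(H.image (fun h : ℕ => (h, 1))) = #H := card_image_of_injective H hinj
  obtain ⟨δ, c, hδ, -, hc, κ, N₀, hmain⟩ := hC m (H.image (fun h : ℕ => (h, 1))) B
    (by rw [hcard]; exact hH)
    (fun s hs => by
      rw [mem_image] at hs
      obtain ⟨h, _, rfl⟩ := hs
      exact le_rfl)
    (fun s _ p n => by
      rw [hB]
      beta_reduce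
      have h : ((n + s.1) ^ 2 + 1) * ((n + s.1) ^ 2 + 3) ≡
          ((n % p + s.1) ^ 2 + 1) * ((n % p + s.1) ^ 2 + 3) [MOD p] :=
        ((((Nat.mod_modEq n p).symm.add_right _).pow 2).add_right 1).mul
          ((((Nat.mod_modEq n p).symm.add_right _).pow 2).add_right 3)
      exact h.dvd_iff dvd_rfl)
    (fun s hs p n _ hd => by
      rw [mem_image] at hs
      obtain ⟨h, _, rfl⟩ := hs
      rw [hB]
      exact (by simpa using hd : p ∣ (n + h) ^ 2 + 1).mul_right _)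
    (fun s _ p hp => by rw [hB]; exact (rhB_om s.1 p hp).1)
    (fun s _ p _ h => absurd h (Nat.not_lt_zero _))
    (fun s _ p hp _ => by rw [hB]; exact (rhB_om s.1 p hp).2)
    1 one_pos
  obtain ⟨N₁, hN₁⟩ : ∃ N₁ : ℕ, ∀ h ∈ H, h ≤ N₁ := ⟨H.sup id, fun h hh => le_sup (f := id) hh⟩
  refine ⟨⌊5 / δ⌋₊, δ, c, κ, max N₀ (max (4 * N₁) 10), hδ, hc, fun N hN => ?_⟩
  have hNN0 : N₀ ≤ N := (le_max_left _ _).trans hN
  have hNN1 : 4 * N₁ ≤ N := ((le_max_left _ _).trans (le_max_right _ _)).trans hN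
  have hN10 : 10 ≤ N := ((le_max_right _ _).trans (le_max_right _ _)).trans hN
  refine (hmain N hNN0).trans ?_
  rw [← Set.ncard_coe_finset]
  have hfin : ({n : ℕ | N < n ∧ n ≤ 2 * N ∧
        m + 1 ≤ {h : ℕ | h ∈ H ∧
          ArithmeticFunction.cardFactors ((n + h) ^ 2 + 1) ≤ 2 ∧
          ArithmeticFunction.cardFactors ((n + h) ^ 2 + 3) ≤ ⌊5 / δ⌋₊ ∧
          (∀ p : ℕ, p.Prime → p ∣ (n + h) ^ 2 + 1 → (N : ℝ) ^ ((9 : ℝ) / 40) ≤ p) ∧
          ∀ p : ℕ, p.Prime → p ∣ (n + h) ^ 2 + 3 → (N : ℝ) ^ δ ≤ p}.ncard}).Finite :=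
    (Set.finite_Icc N (2 * N)).subset fun n hn => ⟨hn.1.le, hn.2.1⟩
  have key := Set.ncard_le_ncard (s := ((Ioc N (2 * N)).filter (fun n =>
        m + 1 ≤ #((H.image (fun h : ℕ => (h, 1))).filter
          (fun s => (∀ p : ℕ, p.Prime → p < pw N δ → ¬ B s p n) ∧
            GoodV N ((n + s.1) ^ 2 + s.2 ^ 2)))) : Set ℕ)) (ht := hfin) ?_
  · exact_mod_cast key
  intro n hn
  rw [mem_coe, mem_filter, mem_Ioc] at hn
  obtain ⟨⟨hn1, hn2⟩, hn3⟩ := hn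
  refine ⟨hn1, hn2, hn3.trans ?_⟩
  have hHf : ({h : ℕ | h ∈ H ∧
          ArithmeticFunction.cardFactors ((n + h) ^ 2 + 1) ≤ 2 ∧
          ArithmeticFunction.cardFactors ((n + h) ^ 2 + 3) ≤ ⌊5 / δ⌋₊ ∧
          (∀ p : ℕ, p.Prime → p ∣ (n + h) ^ 2 + 1 → (N : ℝ) ^ ((9 : ℝ) / 40) ≤ p) ∧
          ∀ p : ℕ, p.Prime → p ∣ (n + h) ^ 2 + 3 → (N : ℝ) ^ δ ≤ p}).Finite :=
    (Finset.finite_toSet H).subset fun h hh => hh.1
  rw [← Set.ncard_coe_finset]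
  apply Set.ncard_le_ncard_of_injOn (fun s => s.1) _ _ hHf
  · intro s hs
    rw [mem_coe, mem_filter, mem_image] at hs
    obtain ⟨⟨h, hh, rfl⟩, hrough, hgood⟩ := hs
    rw [hB] at hrough
    simp only at hrough hgood ⊢
    rw [one_pow] at hgood
    have hr3 : ∀ p : ℕ, p.Prime → p ∣ (n + h) ^ 2 + 3 → (N : ℝ) ^ δ ≤ p := fun p hp hd =>
      rough_of N δ _ hrough p hp (hd.mul_left _)
    refine ⟨hh, hgood.1, ?_, ?_, hr3⟩
    · refine omega_le δ hδ N _ (by omega) (by omega) ?_ hr3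
      have h1 := hN₁ h hh
      have h2 : n + h ≤ 2 * N + N / 4 := by omega
      have h3 : ((n + h : ℕ) : ℝ) ≤ 9 / 4 * N := by
        have h4 : 4 * (n + h) ≤ 9 * N := by omega
        have h5 : (4 : ℝ) * ((n + h : ℕ) : ℝ) ≤ 9 * N := by exact_mod_cast h4
        linarith
      have h6 : (10 : ℝ) ≤ N := by exact_mod_cast hN10
      push_cast at h3 ⊢
      have h7 : ((n : ℝ) + h) ^ 2 ≤ (9 / 4 * N) ^ 2 :=
        pow_le_pow_left₀ (by positivity) h3 2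
      nlinarith
    · intro p hp hd
      have h1 := hgood.2 p hp hd
      have h2 : (N : ℝ) ^ ((9 : ℝ) / 40) ≤ (pw N zExp : ℝ) := by
        unfold pw zExp
        exact Nat.le_ceil _
      refine h2.trans ?_
      exact_mod_cast h1
  · intro s hs s' hs' hss
    rw [mem_coe, mem_filter, mem_image] at hs hs'
    obtain ⟨⟨h, _, rfl⟩, _⟩ := hs
    obtain ⟨⟨h', _, rfl⟩, _⟩ := hs'
    simp only at hss
    rw [hss]

end Pool.Agent.Results.MP_2dba45_nt.BoundedGaps
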