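import Mathlib
import Pool.Agent.Work.MP_2dba45_nt.Sv.Final
import Pool.Agent.Work.MP_2dba45_nt.BilFin
import Pool.Agent.Work.MP_2dba45_nt.Weil.Final

set_option autoImplicit false

namespace Pool.Agent.Results.MP_2dba45_nt.PTwoAndRough

open Finset

/-- an integer in `[1, 8 N ^ 2]` all of whose prime factors are at least `N ^ δ` has at most
`5 / δ` prime factors -/
theorem omega_le (δ : ℝ) (hδ : 0 < δ) (N k : ℕ) (hN : 2 ≤ N) (hk : 1 ≤ k) (hk8 : k ≤ 8 * N ^ 2)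
    (h : ∀ p : ℕ, p.Prime → p ∣ k → (N : ℝ) ^ δ ≤ p) :
    ArithmeticFunction.cardFactors k ≤ ⌊5 / δ⌋₊ := by
  have hN0 : (0 : ℝ) < N := by positivity
  have hN2 : (2 : ℝ) ≤ N := by exact_mod_cast hN
  have hlog : 0 < Real.log N := Real.log_pos (by linarith)
  apply Nat.le_floor
  rw [le_div_iff₀ hδ]
  -- `(N ^ δ) ^ Ω ≤ k`
  have h1 : ((N : ℝ) ^ δ) ^ (ArithmeticFunction.cardFactors k) ≤ k := by
    have hprod : ((k.primeFactorsList.prod : ℕ) : ℝ) = k := by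
      rw [Nat.prod_primeFactorsList (by omega)]
    rw [ArithmeticFunction.cardFactors_apply, ← hprod]
    have : ∀ l : List ℕ, (∀ p ∈ l, (N : ℝ) ^ δ ≤ p) →
        ((N : ℝ) ^ δ) ^ l.length ≤ ((l.prod : ℕ) : ℝ) := by
      intro l
      induction l with
      | nil => intro _; simp
      | cons p l ih =>
        intro hl
        rw [List.length_cons, pow_succ, List.prod_cons, Nat.cast_mul, mul_comm]
        exact mul_le_mul (hl p (List.mem_cons_self)) (ih fun q hq => hl q (List.mem_cons_of_mem _ hq))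
          (by positivity) (by positivity)
    refine this _ fun p hp => ?_
    exact h p (Nat.prime_of_mem_primeFactorsList hp) (Nat.dvd_of_mem_primeFactorsList hp)
  have h2 : (k : ℝ) ≤ (N : ℝ) ^ (5 : ℕ) := by
    have h3 : (k : ℝ) ≤ 8 * (N : ℝ) ^ 2 := by exact_mod_cast hk8
    have h4 : (8 : ℝ) ≤ (N : ℝ) ^ 3 := by
      calc (8 : ℝ) = 2 ^ 3 := by norm_num
        _ ≤ (N : ℝ) ^ 3 := by gcongr
    calc (k : ℝ) ≤ 8 * (N : ℝ) ^ 2 := h3
      _ ≤ (N : ℝ) ^ 3 * (N : ℝ) ^ 2 := by gcongr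
      _ = (N : ℝ) ^ 5 := by ring
  have h3 := h1.trans h2
  rw [← Real.rpow_natCast, ← Real.rpow_mul hN0.le, ← Real.rpow_natCast] at h3
  have h4 := (Real.rpow_le_rpow_left_iff (by linarith : (1 : ℝ) < N)).1 h3
  push_cast at h4
  linarith

/-- For large `N` at least `c N / log ^ 2 N` of the integers `n` in `(N, 2 N]` have the property
that `n ^ 2 + 1` has at most two prime factors, `n ^ 2 + 3` has at most `K` prime factors (both
counted with multiplicity), and all prime factors of both are at least `N ^ δ`. -/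
theorem result : ∃ (δ c : ℝ) (K N₀ : ℕ), 0 < δ ∧ 0 < c ∧ ∀ N : ℕ, N₀ ≤ N →
    c * (N / (Real.log N) ^ 2) ≤
      ({n : ℕ | N < n ∧ n ≤ 2 * N ∧ ArithmeticFunction.cardFactors (n ^ 2 + 1) ≤ 2 ∧
        ArithmeticFunction.cardFactors (n ^ 2 + 3) ≤ K ∧
        ∀ p : ℕ, p.Prime → p ∣ (n ^ 2 + 1) * (n ^ 2 + 3) → (N : ℝ) ^ δ ≤ p}.ncard : ℝ) := by
  classical
  have hB : Pool.Agent.Work.MP_2dba45_nt.BilDef.BIL := by
    refine Pool.Agent.Work.MP_2dba45_nt.Bil.bil ?_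
    intro p hp a b hb
    have := hp
    exact Pool.Agent.Work.MP_2dba45_nt.Weil.weil p a b hb
  obtain ⟨δ, hδ, c, hc, N₀, h⟩ := Pool.Agent.Work.MP_2dba45_nt.Sv.sieve_side hB
  refine ⟨δ, c, ⌊5 / δ⌋₊, max N₀ 2, hδ, hc, fun N hN => ?_⟩
  have hN0 : N₀ ≤ N := (le_max_left _ _).trans hN
  have hN2 : 2 ≤ N := (le_max_right _ _).trans hN
  refine (h N hN0).trans ?_
  norm_cast
  rw [← Set.ncard_coe_finset]
  refine Set.ncard_le_ncard ?_ ((Set.finite_Icc N (2 * N)).subset fun n hn => ⟨hn.1.le, hn.2.1⟩)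
  intro n hn
  rw [mem_coe, mem_filter] at hn
  refine ⟨(mem_Ioc.1 hn.1).1, (mem_Ioc.1 hn.1).2, hn.2.1, ?_, fun p hp hpd => hn.2.2 p hp hpd⟩
  refine omega_le δ hδ N _ hN2 (by omega) ?_ fun p hp hpd => hn.2.2 p hp (hpd.mul_left _)
  have h1 := (mem_Ioc.1 hn.1).2
  nlinarith

end Pool.Agent.Results.MP_2dba45_nt.PTwoAndRough
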