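import Mathlib
import Pool.Agent.Work.MP_2dba45_nt.TG.Loc

set_option autoImplicit false

namespace Pool.Agent.Results.MP_2dba45_nt.PairsOfPTwo

open Finset Pool.Agent.Work.MP_2dba45_nt.TG Pool.Agent.Work.MP_2dba45_nt.Sv

/-- There is a constant `C` such that for every `k ≥ 1` and every set `S` of at least `C ^ k` odd
integers there are `≫ N / (log N) ^ κ` integers `n` in `(N, 2 N]` for which at least `k` of the
integers `n ^ 2 + s ^ 2`, `s ∈ S`, have at most two prime factors, all at least `N ^ (9 / 40)`, and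
`n ^ 2 + 1`, `n ^ 2 + 3` have at most `R` prime factors, all at least `N ^ δ`. -/
theorem result : ∃ C : ℕ, ∀ (k : ℕ) (S : Finset ℕ), 1 ≤ k → (∀ s ∈ S, Odd s) → C ^ k ≤ #S →
    ∃ (R : ℕ) (δ c : ℝ) (κ N₀ : ℕ), 0 < δ ∧ 0 < c ∧ ∀ N : ℕ, N₀ ≤ N →
      c * (N / (Real.log N) ^ κ) ≤ ({n : ℕ | N < n ∧ n ≤ 2 * N ∧
        ArithmeticFunction.cardFactors (n ^ 2 + 1) ≤ R ∧
        ArithmeticFunction.cardFactors (n ^ 2 + 3) ≤ R ∧
        (∀ p : ℕ, p.Prime → p ∣ (n ^ 2 + 1) * (n ^ 2 + 3) → (N : ℝ) ^ δ ≤ p) ∧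
        k ≤ {s : ℕ | s ∈ S ∧ ArithmeticFunction.cardFactors (n ^ 2 + s ^ 2) ≤ 2 ∧
          ∀ p : ℕ, p.Prime → p ∣ n ^ 2 + s ^ 2 → (N : ℝ) ^ ((9 : ℝ) / 40) ≤ p}.ncard}.ncard : ℝ) := by
  classical
  obtain ⟨C, hC1, hC⟩ := tuple_any 6 12
  refine ⟨C, fun k S hk hodd hS => ?_⟩
  obtain ⟨m, rfl⟩ : ∃ m, k = m + 1 := ⟨k - 1, by omega⟩
  obtain ⟨B, hB⟩ : ∃ B : ℕ × ℕ → ℕ → ℕ → Prop,
      B = fun s p n => p ∣ (n ^ 2 + s.2 ^ 2) * ((n ^ 2 + 1) * (n ^ 2 + 3)) := ⟨_, rfl⟩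
  have hinj : Function.Injective (fun s : ℕ => (0, s)) := fun a b hab => (Prod.mk.injEq _ _ _ _ ▸ hab).2
  have hcard : #(S.image (fun s : ℕ => (0, s))) = #S := card_image_of_injective S hinj
  have hoddI : ∀ s ∈ S.image (fun s : ℕ => (0, s)), s.1 = 0 ∧ Odd s.2 := by
    intro s hs
    rw [mem_image] at hs
    obtain ⟨h, hh, rfl⟩ := hs
    exact ⟨rfl, hodd h hh⟩
  have h6 : ∀ s p : ℕ, p.Prime →
      rhB (fun p n => p ∣ (n ^ 2 + s ^ 2) * ((n ^ 2 + 1) * (n ^ 2 + 3))) p ≤ 6 := by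
    intro s p hp
    have h0 := rhB_three s p hp
    have h1 := Pool.Agent.Work.MP_2dba45_nt.Nu.nu_le (s ^ 2) p hp
    have h2 := Pool.Agent.Work.MP_2dba45_nt.Nu.nu_le 1 p hp
    have h3 := Pool.Agent.Work.MP_2dba45_nt.Nu.nu_le 3 p hp
    omega
  obtain ⟨δ, c, hδ, -, hc, κ, N₀, hmain⟩ := hC m (S.image (fun s : ℕ => (0, s))) B
    (by rw [hcard]; exact hS)
    (fun s hs => (hoddI s hs).2.pos)
    (fun s _ p n => by
      rw [hB]
      beta_reduce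
      have h : (n ^ 2 + s.2 ^ 2) * ((n ^ 2 + 1) * (n ^ 2 + 3)) ≡
          ((n % p) ^ 2 + s.2 ^ 2) * (((n % p) ^ 2 + 1) * ((n % p) ^ 2 + 3)) [MOD p] :=
        (((Nat.mod_modEq n p).symm.pow 2).add_right _).mul
          ((((Nat.mod_modEq n p).symm.pow 2).add_right 1).mul
          (((Nat.mod_modEq n p).symm.pow 2).add_right 3))
      exact h.dvd_iff dvd_rfl)
    (fun s hs p n _ hd => by
      rw [(hoddI s hs).1, add_zero] at hd
      rw [hB]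
      exact hd.mul_right _)
    (fun s _ p hp => by rw [hB]; exact h6 s.2 p hp)
    (fun s hs p hp h12 => by rw [hB]; exact rhB_three_small s.2 p (hoddI s hs).2 hp h12)
    (fun s _ p hp h12 => by
      rw [hB]
      beta_reduce
      have := h6 s.2 p hp
      omega)
    1 one_pos
  refine ⟨⌊5 / δ⌋₊, δ, c, κ, max N₀ 10, hδ, hc, fun N hN => ?_⟩
  have hNN0 : N₀ ≤ N := (le_max_left _ _).trans hN
  have hN10 : 10 ≤ N := (le_max_right _ _).trans hN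
  refine (hmain N hNN0).trans ?_
  rw [← Set.ncard_coe_finset]
  have hfin : ({n : ℕ | N < n ∧ n ≤ 2 * N ∧
        ArithmeticFunction.cardFactors (n ^ 2 + 1) ≤ ⌊5 / δ⌋₊ ∧
        ArithmeticFunction.cardFactors (n ^ 2 + 3) ≤ ⌊5 / δ⌋₊ ∧
        (∀ p : ℕ, p.Prime → p ∣ (n ^ 2 + 1) * (n ^ 2 + 3) → (N : ℝ) ^ δ ≤ p) ∧
        m + 1 ≤ {s : ℕ | s ∈ S ∧ ArithmeticFunction.cardFactors (n ^ 2 + s ^ 2) ≤ 2 ∧
          ∀ p : ℕ, p.Prime → p ∣ n ^ 2 + s ^ 2 → (N : ℝ) ^ ((9 : ℝ) / 40) ≤ p}.ncard}).Finite :=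
    (Set.finite_Icc N (2 * N)).subset fun n hn => ⟨hn.1.le, hn.2.1⟩
  have key := Set.ncard_le_ncard (s := ((Ioc N (2 * N)).filter (fun n =>
        m + 1 ≤ #((S.image (fun s : ℕ => (0, s))).filter
          (fun s => (∀ p : ℕ, p.Prime → p < pw N δ → ¬ B s p n) ∧
            GoodV N ((n + s.1) ^ 2 + s.2 ^ 2)))) : Set ℕ)) (ht := hfin) ?_
  · exact_mod_cast key
  intro n hn
  rw [mem_coe, mem_filter, mem_Ioc] at hn
  obtain ⟨⟨hn1, hn2⟩, hn3⟩ := hn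
  -- one element gives the conditions on `n ^ 2 + 1` and `n ^ 2 + 3`
  obtain ⟨s₀, hs₀⟩ : ((S.image (fun s : ℕ => (0, s))).filter
          (fun s => (∀ p : ℕ, p.Prime → p < pw N δ → ¬ B s p n) ∧
            GoodV N ((n + s.1) ^ 2 + s.2 ^ 2))).Nonempty := card_pos.1 (by omega)
  rw [mem_filter] at hs₀
  have hr := hs₀.2.1
  rw [hB] at hr
  beta_reduce at hr
  have hr1 : ∀ p : ℕ, p.Prime → p ∣ n ^ 2 + 1 → (N : ℝ) ^ δ ≤ p := fun p hp hd =>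
    rough_of N δ _ hr p hp ((hd.mul_right _).mul_left _)
  have hr3 : ∀ p : ℕ, p.Prime → p ∣ n ^ 2 + 3 → (N : ℝ) ^ δ ≤ p := fun p hp hd =>
    rough_of N δ _ hr p hp ((hd.mul_left _).mul_left _)
  have hsize : (n : ℝ) ^ 2 ≤ 4 * (N : ℝ) ^ 2 := by
    have h1 : (n : ℝ) ≤ 2 * N := by exact_mod_cast hn2
    have h2 : (n : ℝ) ^ 2 ≤ (2 * N) ^ 2 := pow_le_pow_left₀ (Nat.cast_nonneg _) h1 2
    linarith
  have hN10r : (10 : ℝ) ≤ N := by exact_mod_cast hN10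
  refine ⟨hn1, hn2, ?_, ?_, ?_, hn3.trans ?_⟩
  · refine omega_le δ hδ N _ (by omega) (by omega) ?_ hr1
    push_cast
    nlinarith
  · refine omega_le δ hδ N _ (by omega) (by omega) ?_ hr3
    push_cast
    nlinarith
  · intro p hp hd
    rcases (Nat.Prime.dvd_mul hp).1 hd with h | h
    · exact hr1 p hp h
    · exact hr3 p hp h
  have hSf : ({s : ℕ | s ∈ S ∧ ArithmeticFunction.cardFactors (n ^ 2 + s ^ 2) ≤ 2 ∧
          ∀ p : ℕ, p.Prime → p ∣ n ^ 2 + s ^ 2 → (N : ℝ) ^ ((9 : ℝ) / 40) ≤ p}).Finite :=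
    (Finset.finite_toSet S).subset fun h hh => hh.1
  rw [← Set.ncard_coe_finset]
  apply Set.ncard_le_ncard_of_injOn (fun s => s.2) _ _ hSf
  · intro s hs
    rw [mem_coe, mem_filter, mem_image] at hs
    obtain ⟨⟨h, hh, rfl⟩, _, hgood⟩ := hs
    simp only [add_zero] at hgood ⊢
    refine ⟨hh, hgood.1, ?_⟩
    intro p hp hd
    have h1 := hgood.2 p hp hd
    have h2 : (N : ℝ) ^ ((9 : ℝ) / 40) ≤ (pw N zExp : ℝ) := by
      unfold pw zExp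
      exact Nat.le_ceil _
    refine h2.trans ?_
    exact_mod_cast h1
  · intro s hs s' hs' hss
    rw [mem_coe, mem_filter, mem_image] at hs hs'
    obtain ⟨⟨h, _, rfl⟩, _⟩ := hs
    obtain ⟨⟨h', _, rfl⟩, _⟩ := hs'
    simp only at hss
    rw [hss]

end Pool.Agent.Results.MP_2dba45_nt.PairsOfPTwo
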