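import Mathlib
import Pool.Agent.Work.MP_2dba45_nt.Fin6

set_option autoImplicit false

namespace Pool.Agent.Results.MP_2dba45_nt.RoughLargeFactors

open Filter Pool.Agent.Work.MP_2dba45_nt.Fin Pool.Agent.Work.MP_2dba45_nt.Rep
  Pool.Agent.Work.MP_2dba45_nt.VV

/-- the set being counted -/
def good (δ : ℝ) (N z : ℕ) : Set ℕ :=
  {m : ℕ | N < m ∧ m ≤ 2 * N ∧ Squarefree ((m ^ 2 + 1) * (m ^ 2 + 3)) ∧
    (∀ q : ℕ, q.Prime → q ∣ (m ^ 2 + 1) * (m ^ 2 + 3) → z ≤ q) ∧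
    (∃ p : ℕ, p.Prime ∧ p ∣ m ^ 2 + 1 ∧ (m : ℝ) ^ (1 + δ) < p) ∧
    (∃ p : ℕ, p.Prime ∧ p ∣ m ^ 2 + 3 ∧ (m : ℝ) ^ (1 + δ) < p)}

theorem good_finite (δ : ℝ) (N z : ℕ) : (good δ N z).Finite :=
  (Set.finite_Iic (2 * N)).subset fun m hm => hm.2.1

theorem good_anti (δ : ℝ) (N : ℕ) {z z' : ℕ} (h : z ≤ z') : good δ N z' ⊆ good δ N z := by
  intro m hm
  obtain ⟨h1, h2, h3, h4, h5, h6⟩ := hm
  exact ⟨h1, h2, h3, fun q hq hd => h.trans (h4 q hq hd), h5, h6⟩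

theorem coprime_values {z m : ℕ} (hz : 5 ≤ z) (h : Rough z m) :
    Nat.Coprime (m ^ 2 + 1) (m ^ 2 + 3) := by
  apply Nat.coprime_of_dvd
  intro k hk h1 h3
  have h2 : k ∣ 2 := by
    have : k ∣ (m ^ 2 + 3) - (m ^ 2 + 1) := Nat.dvd_sub h3 h1
    have e : (m ^ 2 + 3) - (m ^ 2 + 1) = 2 := by omega
    rwa [e] at this
  have hk2 : k = 2 := (Nat.prime_dvd_prime_iff_eq hk Nat.prime_two).1 h2
  subst hk2
  exact h 2 Nat.prime_two (by omega) (Dvd.dvd.mul_right h1 _)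

theorem result : ∃ δ τ c : ℝ, 0 < δ ∧ 0 < τ ∧ 0 < c ∧ ∃ N₀ : ℕ, ∀ N : ℕ, N₀ ≤ N →
    ∀ z : ℕ, 2 ≤ z → (z : ℝ) ≤ (N : ℝ) ^ τ →
      c * (N : ℝ) / (Real.log z) ^ 2 ≤
        (Set.ncard {m : ℕ | N < m ∧ m ≤ 2 * N ∧ Squarefree ((m ^ 2 + 1) * (m ^ 2 + 3)) ∧
          (∀ q : ℕ, q.Prime → q ∣ (m ^ 2 + 1) * (m ^ 2 + 3) → z ≤ q) ∧
          (∃ p : ℕ, p.Prime ∧ p ∣ m ^ 2 + 1 ∧ (m : ℝ) ^ (1 + δ) < p) ∧
          (∃ p : ℕ, p.Prime ∧ p ∣ m ^ 2 + 3 ∧ (m : ℝ) ^ (1 + δ) < p)} : ℝ) := by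
  obtain ⟨δ, τ, c, hδ, hτ, hτ1, hc, z1, hz15, hev⟩ := main_ev
  obtain ⟨cV, hcV, hV⟩ := V_ge
  have hl2 : 0 < Real.log 2 := Real.log_pos (by norm_num)
  have hz1r : (2 : ℝ) ≤ z1 := by exact_mod_cast (by omega : 2 ≤ z1)
  have hlz1 : Real.log 2 ≤ Real.log z1 := Real.log_le_log (by norm_num) hz1r
  have hlz10 : 0 < Real.log z1 := by linarith
  have hev2 : ∀ᶠ N : ℕ in atTop, 4 ≤ (N : ℝ) ^ (δ / 2) := ev_rpow (δ / 2) (by positivity) 4
  have hev3 : ∀ᶠ N : ℕ in atTop, (z1 : ℝ) ≤ (N : ℝ) ^ τ := ev_rpow τ hτ z1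
  obtain ⟨N₀, hN₀⟩ := eventually_atTop.1 ((hev.and (hev2.and hev3)).and (eventually_ge_atTop 3))
  set δ' : ℝ := min (δ / 2) 1 with hδ'
  have hδ'0 : 0 < δ' := lt_min (by positivity) one_pos
  have hδ'1 : δ' ≤ 1 := min_le_right _ _
  have hδ'2 : δ' ≤ δ / 2 := min_le_left _ _
  refine ⟨δ', τ, c * cV * (Real.log 2) ^ 2 / (Real.log z1) ^ 2, hδ'0, hτ, by positivity, N₀,
    fun N hN z hz hzN => ?_⟩
  obtain ⟨⟨hmain, h4, hz1N⟩, hN3⟩ := hN₀ N hN
  have hN3' : (3 : ℝ) ≤ N := by exact_mod_cast hN3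
  have hN1 : (1 : ℝ) ≤ N := by linarith
  have hN0 : (0 : ℝ) < N := by linarith
  -- the count for levels at least `z1`
  have key : ∀ z' : ℕ, z1 ≤ z' → (z' : ℝ) ≤ (N : ℝ) ^ τ →
      c * cV * N / (Real.log z') ^ 2 ≤ ((good δ' N z').ncard : ℝ) := by
    intro z' hz' hz'N
    obtain ⟨w, hw, hcard⟩ := hmain z' hz' hz'N
    have h1 : (c * cV * N / (Real.log z') ^ 2 : ℝ) ≤ c * XX N z' := by
      have h2 := hV z' (by omega)
      unfold XX
      calc c * cV * N / (Real.log z') ^ 2 = c * (N * (cV / (Real.log z') ^ 2)) := by ring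
        _ ≤ c * (N * V z') := by gcongr
    refine h1.trans (hcard.trans ?_)
    have h3 : (BB N z' w : Set ℕ) ⊆ good δ' N z' := by
      classical
      intro m hm
      rw [Finset.mem_coe] at hm
      unfold BB at hm
      rw [Finset.mem_filter, mem_SQ, mem_SS] at hm
      obtain ⟨⟨⟨⟨hm1, hm2⟩, hrough⟩, hs1, hs3⟩, ⟨p, hp, hpd, hwp⟩, ⟨q, hq, hqd, hwq⟩⟩ := hm
      have hcop := coprime_values (by omega : 5 ≤ z') hrough
      have hmw : (m : ℝ) ^ (1 + δ') < w := by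
        have hm0 : (0 : ℝ) < m := by exact_mod_cast (by omega : 0 < m)
        have hm2N : (m : ℝ) ≤ 2 * N := by exact_mod_cast hm2
        refine lt_of_le_of_lt ?_ hw
        calc (m : ℝ) ^ (1 + δ') ≤ (2 * N : ℝ) ^ (1 + δ') := by
              apply Real.rpow_le_rpow hm0.le hm2N (by linarith)
          _ = (2 : ℝ) ^ (1 + δ') * (N : ℝ) ^ (1 + δ') := Real.mul_rpow (by norm_num) hN0.le
          _ ≤ (2 : ℝ) ^ (2 : ℝ) * (N : ℝ) ^ (1 + δ') := by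
              apply mul_le_mul_of_nonneg_right _ (by positivity)
              exact Real.rpow_le_rpow_of_exponent_le (by norm_num) (by linarith)
          _ = 4 * (N : ℝ) ^ (1 + δ') := by norm_num
          _ ≤ (N : ℝ) ^ (δ / 2) * (N : ℝ) ^ (1 + δ') := by gcongr
          _ = (N : ℝ) ^ (δ / 2 + (1 + δ')) := by rw [← Real.rpow_add hN0]
          _ ≤ (N : ℝ) ^ (1 + δ) := Real.rpow_le_rpow_of_exponent_le hN1 (by linarith)
      refine ⟨hm1, hm2, (Nat.squarefree_mul hcop).2 ⟨hs1, hs3⟩, ?_, ⟨p, hp, hpd, ?_⟩,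
        ⟨q, hq, hqd, ?_⟩⟩
      · intro r hr hrd
        by_contra hlt
        push Not at hlt
        exact hrough r hr hlt hrd
      · have : (w : ℝ) < p := by exact_mod_cast hwp
        linarith
      · have : (w : ℝ) < q := by exact_mod_cast hwq
        linarith
    have h5 := Set.ncard_le_ncard h3 (good_finite δ' N z')
    rw [Set.ncard_coe_finset] at h5
    exact_mod_cast h5
  have hlz : Real.log 2 ≤ Real.log z := Real.log_le_log (by norm_num) (by exact_mod_cast hz)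
  have hlz0 : 0 < Real.log z := by linarith
  change _ ≤ ((good δ' N z).ncard : ℝ)
  rcases Nat.lt_or_ge z z1 with hlt | hge
  · have h5 := key z1 le_rfl hz1N
    have h6 := Set.ncard_le_ncard (good_anti δ' N hlt.le) (good_finite δ' N z)
    have h7 : ((good δ' N z1).ncard : ℝ) ≤ (good δ' N z).ncard := by exact_mod_cast h6
    refine le_trans ?_ (h5.trans h7)
    rw [div_mul_eq_mul_div, div_div, div_le_div_iff₀ (by positivity) (by positivity)]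
    have h8 : (Real.log 2) ^ 2 ≤ (Real.log z) ^ 2 := by gcongr
    have h9 : 0 ≤ c * cV * N * (Real.log z1) ^ 2 := by positivity
    nlinarith
  · refine le_trans ?_ (key z hge hzN)
    have h8 : (Real.log 2) ^ 2 / (Real.log z1) ^ 2 ≤ 1 := by
      rw [div_le_one (by positivity)]
      gcongr
    apply div_le_div_of_nonneg_right _ (by positivity)
    have h9 : 0 ≤ c * cV * N := by positivity
    calc c * cV * (Real.log 2) ^ 2 / (Real.log z1) ^ 2 * N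
        = (c * cV * N) * ((Real.log 2) ^ 2 / (Real.log z1) ^ 2) := by ring
      _ ≤ (c * cV * N) * 1 := by gcongr
      _ = c * cV * N := by ring

end Pool.Agent.Results.MP_2dba45_nt.RoughLargeFactors
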